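import Mathlib

/-! Block BI-7 (helper26): two subspaces spanned by orthonormal families. -/

set_option autoImplicit false

namespace Pool.Agent.Helper57.BI

open Submodule Filter Topology

section two

variable {E : Type*} [NormedAddCommGroup E] [InnerProductSpace ℂ E]

/-- projection to the span of a finite orthonormal family -/
lemma two_norm_proj {ι : Type*} [Fintype ι] {v : ι → E}
    [(span ℂ (Set.range v)).HasOrthogonalProjection] (hv : Orthonormal ℂ v) (x : E) :
    ‖(span ℂ (Set.range v)).starProjection x‖ ^ 2 = ∑ i, ‖inner ℂ (v i) x‖ ^ 2 := by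
  classical
  have h1 : (span ℂ (Set.range v)).starProjection x = ∑ i, inner ℂ (v i) x • v i := by
    apply eq_starProjection_of_mem_of_inner_eq_zero
    · exact sum_mem fun i _ => smul_mem _ _ (subset_span ⟨i, rfl⟩)
    · intro w hw
      induction hw using span_induction with
      | mem w hw =>
        obtain ⟨j, rfl⟩ := hw
        rw [inner_sub_left, sum_inner]
        have h2 : ∑ i, inner ℂ (inner ℂ (v i) x • v i) (v j) = inner ℂ x (v j) := by
          rw [Finset.sum_eq_single j]
          · rw [inner_smul_left, inner_self_eq_norm_sq_to_K, hv.1 j, inner_conj_symm]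
            simp
          · intro i _ hij
            rw [inner_smul_left, hv.2 hij, mul_zero]
          · intro h
            exact absurd (Finset.mem_univ j) h
        rw [h2, sub_self]
      | zero => rw [inner_zero_right]
      | add a b _ _ ha hb => rw [inner_add_right, ha, hb, add_zero]
      | smul c a _ ha => rw [inner_smul_right, ha, mul_zero]
  rw [h1]
  have h2 : ‖∑ i, inner ℂ (v i) x • v i‖ ^ 2 = ∑ i, ‖inner ℂ (v i) x‖ ^ 2 := by
    have h3 := hv.inner_sum (fun i => inner ℂ (v i) x) (fun i => inner ℂ (v i) x) Finset.univ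
    have h4 := congrArg RCLike.re h3
    rw [inner_self_eq_norm_sq] at h4
    rw [h4, map_sum]
    apply Finset.sum_congr rfl
    intro i _
    rw [RCLike.conj_mul]
    norm_cast
  exact h2

/-- the projection norm is at most the norm of a vector with the same pairing -/
lemma two_proj_le (M : Submodule ℂ E) [M.HasOrthogonalProjection] (x z : E)
    (h : x - z ∈ Mᗮ) : ‖M.starProjection x‖ ≤ ‖z‖ := by
  have h1 : M.starProjection x = M.starProjection z := by
    have h2 : M.starProjection (x - z) = 0 := by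
      rw [starProjection_apply_eq_zero_iff]
      exact h
    rw [map_sub, sub_eq_zero] at h2
    exact h2
  rw [h1]
  exact norm_starProjection_apply_le M z

variable {ι κ ν : Type*} [Fintype ι] [Fintype κ]

/-- the finite case -/
lemma two_fin (u : ι → E) (w : κ → E) (e : ν → E)
    [(span ℂ (Set.range u) ⊔ span ℂ (Set.range w)).HasOrthogonalProjection]
    (hu : Orthonormal ℂ u) (hw : Orthonormal ℂ w) (he : Orthonormal ℂ e) (K : Finset ν)
    (s t1 t2 : ℝ)
    (hs : ∑ i, ∑ j, ‖inner ℂ (u i) (w j)‖ ^ 2 ≤ s)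
    (h1 : ∑ k ∈ K, ∑ i, ‖inner ℂ (u i) (e k)‖ ^ 2 ≤ t1)
    (h2 : ∑ k ∈ K, ∑ j, ‖inner ℂ (w j) (e k)‖ ^ 2 ≤ t2) :
    ∑ k ∈ K, ‖(span ℂ (Set.range u) ⊔ span ℂ (Set.range w)).starProjection (e k)‖ ^ 2 ≤
      2 * (t1 + t2) + 4 * s := by
  classical
  set R1 : Submodule ℂ E := span ℂ (Set.range u) with hR1
  set R2 : Submodule ℂ E := span ℂ (Set.range w) with hR2
  have hR1fd : FiniteDimensional ℂ R1 := FiniteDimensional.span_of_finite ℂ (Set.finite_range u)
  have hR2fd : FiniteDimensional ℂ R2 := FiniteDimensional.span_of_finite ℂ (Set.finite_range w)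
  -- bad vectors
  have hbound : ∀ (r : ℕ) (b : Fin r → E), Orthonormal ℂ b → (∀ i, b i ∈ R2) →
      (∀ i, 1 / 4 < ‖R1.starProjection (b i)‖ ^ 2) → (r : ℝ) ≤ 4 * s := by
    intro r b hb hbR hbQ
    have h3 : ∑ i : Fin r, ‖R1.starProjection (b i)‖ ^ 2 ≤ s := by
      calc ∑ i : Fin r, ‖R1.starProjection (b i)‖ ^ 2
          = ∑ i : Fin r, ∑ j, ‖inner ℂ (u j) (b i)‖ ^ 2 :=
            Finset.sum_congr rfl fun i _ => two_norm_proj hu (b i)
        _ = ∑ j, ∑ i : Fin r, ‖inner ℂ (b i) (R2.starProjection (u j))‖ ^ 2 := by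
            rw [Finset.sum_comm]
            refine Finset.sum_congr rfl fun j _ => Finset.sum_congr rfl fun i _ => ?_
            rw [← inner_starProjection_left_eq_right, starProjection_eq_self_iff.mpr (hbR i),
              ← inner_conj_symm, RCLike.norm_conj]
        _ ≤ ∑ j, ‖R2.starProjection (u j)‖ ^ 2 :=
            Finset.sum_le_sum fun j _ => hb.sum_inner_products_le _
        _ = ∑ j, ∑ k, ‖inner ℂ (w k) (u j)‖ ^ 2 :=
            Finset.sum_congr rfl fun j _ => two_norm_proj hw (u j)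
        _ = ∑ j, ∑ k, ‖inner ℂ (u j) (w k)‖ ^ 2 := by
            refine Finset.sum_congr rfl fun j _ => Finset.sum_congr rfl fun k _ => ?_
            rw [← inner_conj_symm, RCLike.norm_conj]
        _ ≤ s := hs
    have h4 : ∑ _i : Fin r, (1 / 4 : ℝ) ≤ ∑ i : Fin r, ‖R1.starProjection (b i)‖ ^ 2 :=
      Finset.sum_le_sum fun i _ => (hbQ i).le
    rw [Finset.sum_const, Finset.card_univ, Fintype.card_fin, nsmul_eq_mul] at h4
    linarith
  let Good : ℕ → Prop := fun r => ∃ b : Fin r → E, Orthonormal ℂ b ∧ (∀ i, b i ∈ R2) ∧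
      (∀ i, 1 / 4 < ‖R1.starProjection (b i)‖ ^ 2)
  have hGood0 : Good 0 := ⟨Fin.elim0, ⟨fun i => i.elim0, fun i => i.elim0⟩, fun i => i.elim0,
    fun i => i.elim0⟩
  obtain ⟨r, ⟨b, hb, hbR, hbQ⟩, hrmax⟩ : ∃ r, Good r ∧ ¬ Good (r + 1) := by
    by_contra hcon
    push Not at hcon
    have hall : ∀ r, Good r := by
      intro r
      induction r with
      | zero => exact hGood0
      | succ r ih => exact hcon r ih
    obtain ⟨b, hb1, hb2, hb3⟩ := hall (⌈4 * s⌉₊ + 1)
    have h3 := hbound _ b hb1 hb2 hb3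
    have h4 := Nat.le_ceil (4 * s)
    push_cast at h3
    linarith
  have hr : (r : ℝ) ≤ 4 * s := hbound r b hb hbR hbQ
  set Eb : Submodule ℂ E := span ℂ (Set.range b) with hEb
  have hEbR : Eb ≤ R2 := span_le.mpr (by rintro _ ⟨i, rfl⟩; exact hbR i)
  set R2' : Submodule ℂ E := R2 ⊓ Ebᗮ with hR2'
  have hR2'fd : FiniteDimensional ℂ R2' := Submodule.finiteDimensional_inf_left _ _
  -- good vectors
  have hgood : ∀ x ∈ R2', ‖R1.starProjection x‖ ^ 2 ≤ 1 / 4 * ‖x‖ ^ 2 := by
    intro x hx
    by_contra hcon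
    push Not at hcon
    have hx0 : x ≠ 0 := by
      rintro rfl
      rw [map_zero, norm_zero] at hcon
      simp at hcon
    have hxn : 0 < ‖x‖ := norm_pos_iff.mpr hx0
    apply hrmax
    let x' : E := ((‖x‖⁻¹ : ℝ) : ℂ) • x
    have hx'n : ‖x'‖ = 1 := by
      simp only [x']
      rw [norm_smul, Complex.norm_real, norm_inv, norm_norm, inv_mul_cancel₀ hxn.ne']
    refine ⟨Matrix.vecCons x' b, ?_, ?_, ?_⟩
    · rw [orthonormal_vecCons_iff]
      refine ⟨hx'n, fun i => ?_, hb⟩
      simp only [x']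
      rw [inner_smul_left]
      have h3 : inner ℂ x (b i) = 0 := by
        rw [← inner_conj_symm]
        have := (mem_orthogonal Eb x).mp hx.2 (b i) (subset_span ⟨i, rfl⟩)
        rw [this, map_zero]
      rw [h3, mul_zero]
    · intro i
      refine Fin.cases ?_ (fun i => ?_) i
      · exact smul_mem _ _ hx.1
      · exact hbR i
    · intro i
      refine Fin.cases ?_ (fun i => ?_) i
      · have h3 : Matrix.vecCons x' b 0 = x' := rfl
        rw [h3]
        simp only [x']
        rw [map_smul, norm_smul, Complex.norm_real, norm_inv, norm_norm, mul_pow, inv_pow]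
        rw [← div_eq_inv_mul, lt_div_iff₀ (by positivity)]
        exact hcon
      · exact hbQ i
  -- the subspace `M`
  set M : Submodule ℂ E := R1 ⊔ R2' with hM
  have hMfd : FiniteDimensional ℂ M := Submodule.finiteDimensional_sup _ _
  have hproj : ∀ x : E, ‖M.starProjection x‖ ^ 2 ≤
      2 * (‖R1.starProjection x‖ ^ 2 + ‖R2.starProjection x‖ ^ 2) := by
    intro x
    obtain ⟨a, ha, c, hc, hac⟩ := mem_sup.mp (starProjection_apply_mem M x)
    rw [← hac]
    have e1 : inner ℂ x (a + c) = ((‖a + c‖ ^ 2 : ℝ) : ℂ) := by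
      rw [hac]
      have h3 : inner ℂ x (M.starProjection x) = inner ℂ (M.starProjection x) (M.starProjection x) := by
        have h4 := starProjection_inner_eq_zero (K := M) x _ (starProjection_apply_mem M x)
        rw [inner_sub_left, sub_eq_zero] at h4
        exact h4
      rw [h3, inner_self_eq_norm_sq_to_K]
      norm_cast
    have e2 : ‖a + c‖ ^ 2 ≤ ‖R1.starProjection x‖ * ‖a‖ + ‖R2.starProjection x‖ * ‖c‖ := by
      have h3 : ‖a + c‖ ^ 2 = ‖inner ℂ x (a + c)‖ := by
        rw [e1, Complex.norm_real, Real.norm_of_nonneg (by positivity)]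
      rw [h3, inner_add_right]
      have h4 : inner ℂ x a = inner ℂ (R1.starProjection x) a := by
        rw [inner_starProjection_left_eq_right, starProjection_eq_self_iff.mpr ha]
      have h5 : inner ℂ x c = inner ℂ (R2.starProjection x) c := by
        rw [inner_starProjection_left_eq_right, starProjection_eq_self_iff.mpr hc.1]
      rw [h4, h5]
      exact (norm_add_le _ _).trans (add_le_add (norm_inner_le_norm _ _) (norm_inner_le_norm _ _))
    have e3 : (‖a‖ ^ 2 + ‖c‖ ^ 2) / 2 ≤ ‖a + c‖ ^ 2 := by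
      have h3 : ‖a + c‖ ^ 2 = ‖a‖ ^ 2 + 2 * RCLike.re (inner ℂ a c) + ‖c‖ ^ 2 := norm_add_sq a c
      have h4 : inner ℂ a c = inner ℂ a (R1.starProjection c) := by
        rw [← inner_starProjection_left_eq_right, starProjection_eq_self_iff.mpr ha]
      have h5 : ‖inner ℂ a c‖ ≤ ‖a‖ * ‖R1.starProjection c‖ := by
        rw [h4]; exact norm_inner_le_norm _ _
      have h6 : ‖R1.starProjection c‖ ≤ 1 / 2 * ‖c‖ := by
        have h7 := hgood c hc
        have h8 : ‖R1.starProjection c‖ ^ 2 ≤ (1 / 2 * ‖c‖) ^ 2 := by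
          rw [mul_pow]; norm_num; linarith
        exact (pow_le_pow_iff_left₀ (norm_nonneg _) (by positivity) two_ne_zero).mp h8
      have h9 : -‖inner ℂ a c‖ ≤ RCLike.re (inner ℂ a c) := by
        have := RCLike.abs_re_le_norm (inner ℂ a c)
        exact (abs_le.mp this).1
      have h10 : ‖a‖ * ‖R1.starProjection c‖ ≤ ‖a‖ * (1 / 2 * ‖c‖) :=
        mul_le_mul_of_nonneg_left h6 (norm_nonneg _)
      nlinarith [sq_nonneg (‖a‖ - ‖c‖)]
    have p1 := norm_nonneg a
    have p2 := norm_nonneg c
    have p3 := norm_nonneg (R1.starProjection x)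
    have p4 := norm_nonneg (R2.starProjection x)
    -- `y^2 ≤ p a + q c`, `a^2 + c^2 ≤ 2 y^2`
    nlinarith [sq_nonneg (2 * ‖R1.starProjection x‖ - ‖a‖), sq_nonneg (2 * ‖R2.starProjection x‖ - ‖c‖)]
  -- the rest
  set E2 : Submodule ℂ E := span ℂ (Set.range fun i => b i - M.starProjection (b i)) with hE2
  have hE2fd : FiniteDimensional ℂ E2 := FiniteDimensional.span_of_finite ℂ (Set.finite_range _)
  have hE2M : ∀ y ∈ E2, ∀ z ∈ M, inner ℂ y z = 0 := by
    intro y hy z hz
    induction hy using span_induction with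
    | mem y hy =>
      obtain ⟨i, rfl⟩ := hy
      exact starProjection_inner_eq_zero _ _ hz
    | zero => rw [inner_zero_left]
    | add a b _ _ ha hb => rw [inner_add_left, ha, hb, add_zero]
    | smul c a _ ha => rw [inner_smul_left, ha, mul_zero]
  have hle : R1 ⊔ R2 ≤ M ⊔ E2 := by
    apply sup_le
    · exact le_sup_left.trans le_sup_left
    · intro x hx
      have hEbfd : FiniteDimensional ℂ Eb := FiniteDimensional.span_of_finite ℂ (Set.finite_range b)
      have h3 : x = Eb.starProjection x + (x - Eb.starProjection x) := by abel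
      have h4 : x - Eb.starProjection x ∈ R2' :=
        ⟨sub_mem hx (hEbR (starProjection_apply_mem Eb x)), sub_starProjection_mem_orthogonal x⟩
      have h5 : Eb ≤ M ⊔ E2 := by
        rw [hEb, span_le]
        rintro _ ⟨i, rfl⟩
        have h6 : b i = M.starProjection (b i) + (b i - M.starProjection (b i)) := by abel
        rw [h6]
        exact add_mem (mem_sup_left (starProjection_apply_mem M _))
          (mem_sup_right (subset_span ⟨i, rfl⟩))
      rw [h3]
      exact add_mem (h5 (starProjection_apply_mem Eb x)) (mem_sup_left (mem_sup_right h4))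
  have hfull : ∀ x : E, ‖(R1 ⊔ R2).starProjection x‖ ^ 2 ≤
      ‖M.starProjection x‖ ^ 2 + ‖E2.starProjection x‖ ^ 2 := by
    intro x
    have h3 : ‖(R1 ⊔ R2).starProjection x‖ ≤ ‖M.starProjection x + E2.starProjection x‖ := by
      apply two_proj_le
      rw [mem_orthogonal']
      intro z hz
      obtain ⟨z1, hz1, z2, hz2, rfl⟩ := mem_sup.mp (hle hz)
      have h4 : inner ℂ (x - M.starProjection x) z1 = 0 := starProjection_inner_eq_zero _ _ hz1
      have h5 : inner ℂ (E2.starProjection x) z1 = 0 := hE2M _ (starProjection_apply_mem E2 x) _ hz1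
      have h6 : inner ℂ (x - E2.starProjection x) z2 = 0 := starProjection_inner_eq_zero _ _ hz2
      have h7 : inner ℂ (M.starProjection x) z2 = 0 := by
        rw [← inner_conj_symm, hE2M _ hz2 _ (starProjection_apply_mem M x), map_zero]
      have h8 : x - (M.starProjection x + E2.starProjection x) =
          (x - M.starProjection x) - E2.starProjection x := by abel
      have h9 : x - (M.starProjection x + E2.starProjection x) =
          (x - E2.starProjection x) - M.starProjection x := by abel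
      rw [inner_add_right]
      conv_lhs => rw [h8]
      rw [inner_sub_left, h4, h5, sub_zero, zero_add, ← h8, h9, inner_sub_left, h6, h7, sub_zero]
    have h4 : ‖M.starProjection x + E2.starProjection x‖ ^ 2 =
        ‖M.starProjection x‖ ^ 2 + ‖E2.starProjection x‖ ^ 2 := by
      have h5 : inner ℂ (M.starProjection x) (E2.starProjection x) = 0 := by
        rw [← inner_conj_symm, hE2M _ (starProjection_apply_mem E2 x) _
          (starProjection_apply_mem M x), map_zero]
      rw [norm_add_sq (𝕜 := ℂ), h5]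
      simp
    rw [← h4]
    exact pow_le_pow_left₀ (norm_nonneg _) h3 2
  -- Bessel for `E2`
  have hE2sum : ∑ k ∈ K, ‖E2.starProjection (e k)‖ ^ 2 ≤ 4 * s := by
    let f := stdOrthonormalBasis ℂ E2
    have hf : ∀ x : E, ‖E2.starProjection x‖ ^ 2 = ∑ l, ‖inner ℂ (f l : E) x‖ ^ 2 := by
      intro x
      have h3 := f.sum_sq_norm_inner_right (E2.orthogonalProjectionOnto x)
      rw [starProjection_apply]
      rw [show ‖((E2.orthogonalProjectionOnto x : E2) : E)‖ = ‖E2.orthogonalProjectionOnto x‖ from rfl,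
        ← h3]
      refine Finset.sum_congr rfl fun l _ => ?_
      rw [inner_orthogonalProjectionOnto_eq_of_mem_left]
    have hfn : ∀ l, ‖(f l : E)‖ = 1 := fun l => f.orthonormal.1 l
    calc ∑ k ∈ K, ‖E2.starProjection (e k)‖ ^ 2
        = ∑ l, ∑ k ∈ K, ‖inner ℂ (e k) (f l : E)‖ ^ 2 := by
          rw [Finset.sum_comm]
          refine Finset.sum_congr rfl fun k _ => ?_
          rw [hf]
          refine Finset.sum_congr rfl fun l _ => ?_
          rw [← inner_conj_symm, RCLike.norm_conj]
      _ ≤ ∑ l, ‖(f l : E)‖ ^ 2 := Finset.sum_le_sum fun l _ => he.sum_inner_products_le _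
      _ = Module.finrank ℂ E2 := by simp [hfn]
      _ ≤ r := by
          have := finrank_range_le_card (R := ℂ) (fun i => b i - M.starProjection (b i))
          rw [Fintype.card_fin] at this
          exact_mod_cast this
      _ ≤ 4 * s := hr
  calc ∑ k ∈ K, ‖(R1 ⊔ R2).starProjection (e k)‖ ^ 2
      ≤ ∑ k ∈ K, (2 * (‖R1.starProjection (e k)‖ ^ 2 + ‖R2.starProjection (e k)‖ ^ 2) +
          ‖E2.starProjection (e k)‖ ^ 2) :=
        Finset.sum_le_sum fun k _ => (hfull (e k)).trans (by linarith [hproj (e k)])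
    _ = 2 * (∑ k ∈ K, ‖R1.starProjection (e k)‖ ^ 2 + ∑ k ∈ K, ‖R2.starProjection (e k)‖ ^ 2) +
          ∑ k ∈ K, ‖E2.starProjection (e k)‖ ^ 2 := by
        rw [Finset.sum_add_distrib, ← Finset.mul_sum, Finset.sum_add_distrib]
    _ ≤ 2 * (t1 + t2) + 4 * s := by
        have h3 : ∑ k ∈ K, ‖R1.starProjection (e k)‖ ^ 2 ≤ t1 := by
          refine le_trans (le_of_eq ?_) h1
          exact Finset.sum_congr rfl fun k _ => two_norm_proj hu (e k)
        have h4 : ∑ k ∈ K, ‖R2.starProjection (e k)‖ ^ 2 ≤ t2 := by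
          refine le_trans (le_of_eq ?_) h2
          exact Finset.sum_congr rfl fun k _ => two_norm_proj hw (e k)
        linarith

end two

/-- BI-7 -/
theorem two_subspaces {E : Type} [NormedAddCommGroup E] [InnerProductSpace ℂ E] [CompleteSpace E]
    {ι κ ν : Type} (u : ι → E) (w : κ → E) (e : ν → E)
    (hu : Orthonormal ℂ u) (hw : Orthonormal ℂ w) (he : Orthonormal ℂ e) (K : Finset ν)
    (s t1 t2 : ℝ)
    (hs : ∀ (I : Finset ι) (J : Finset κ), ∑ i ∈ I, ∑ j ∈ J, ‖inner ℂ (u i) (w j)‖ ^ 2 ≤ s)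
    (h1 : ∀ I : Finset ι, ∑ k ∈ K, ∑ i ∈ I, ‖inner ℂ (u i) (e k)‖ ^ 2 ≤ t1)
    (h2 : ∀ J : Finset κ, ∑ k ∈ K, ∑ j ∈ J, ‖inner ℂ (w j) (e k)‖ ^ 2 ≤ t2) :
    ∃ y : ν → E, (∀ k i, inner ℂ (u i) (y k) = 0) ∧ (∀ k j, inner ℂ (w j) (y k) = 0) ∧
      ∑ k ∈ K, ‖e k - y k‖ ^ 2 ≤ 2 * (t1 + t2) + 4 * s := by
  classical
  let W : Finset ι × Finset κ → Submodule ℂ E := fun p =>
    span ℂ (Set.range fun i : p.1 => u i) ⊔ span ℂ (Set.range fun j : p.2 => w j)
  have hWfd : ∀ p, FiniteDimensional ℂ (W p) := fun p => by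
    have h3 : FiniteDimensional ℂ (span ℂ (Set.range fun i : p.1 => u i)) :=
      FiniteDimensional.span_of_finite ℂ (Set.finite_range _)
    have h4 : FiniteDimensional ℂ (span ℂ (Set.range fun j : p.2 => w j)) :=
      FiniteDimensional.span_of_finite ℂ (Set.finite_range _)
    exact Submodule.finiteDimensional_sup _ _
  have hmono : Monotone W := by
    intro p q hpq
    apply sup_le_sup
    · apply span_mono
      rintro _ ⟨i, rfl⟩
      exact ⟨⟨i, hpq.1 i.2⟩, rfl⟩
    · apply span_mono
      rintro _ ⟨j, rfl⟩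
      exact ⟨⟨j, hpq.2 j.2⟩, rfl⟩
  set M : Submodule ℂ E := (⨆ p, W p).topologicalClosure with hM
  have hMc : IsClosed (M : Set E) := Submodule.isClosed_topologicalClosure _
  have hMcs : CompleteSpace M := hMc.completeSpace_coe
  have hbd : ∀ p, ∑ k ∈ K, ‖(W p).starProjection (e k)‖ ^ 2 ≤ 2 * (t1 + t2) + 4 * s := by
    intro p
    refine two_fin (fun i : p.1 => u i) (fun j : p.2 => w j) e (hu.comp _ Subtype.val_injective)
      (hw.comp _ Subtype.val_injective) he K s t1 t2 ?_ ?_ ?_
    · have := hs p.1 p.2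
      rw [← Finset.sum_coe_sort] at this
      refine le_trans (le_of_eq (Finset.sum_congr rfl fun i _ => ?_)) this
      exact (Finset.sum_coe_sort p.2 fun j => ‖inner ℂ (u i) (w j)‖ ^ 2)
    · refine le_trans (le_of_eq (Finset.sum_congr rfl fun k _ => ?_)) (h1 p.1)
      exact (Finset.sum_coe_sort p.1 fun i => ‖inner ℂ (u i) (e k)‖ ^ 2)
    · refine le_trans (le_of_eq (Finset.sum_congr rfl fun k _ => ?_)) (h2 p.2)
      exact (Finset.sum_coe_sort p.2 fun j => ‖inner ℂ (w j) (e k)‖ ^ 2)
  have hlim : Tendsto (fun p => ∑ k ∈ K, ‖(W p).starProjection (e k)‖ ^ 2) atTop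
      (𝓝 (∑ k ∈ K, ‖M.starProjection (e k)‖ ^ 2)) := by
    apply tendsto_finsetSum
    intro k _
    exact ((starProjection_tendsto_closure_iSup W hmono (e k)).norm).pow 2
  have hle : ∑ k ∈ K, ‖M.starProjection (e k)‖ ^ 2 ≤ 2 * (t1 + t2) + 4 * s :=
    le_of_tendsto' hlim hbd
  refine ⟨fun k => e k - M.starProjection (e k), ?_, ?_, ?_⟩
  · intro k i
    have h3 : u i ∈ M := by
      apply Submodule.le_topologicalClosure
      apply Submodule.mem_iSup_of_mem ({i}, ∅)
      exact mem_sup_left (subset_span ⟨⟨i, Finset.mem_singleton_self i⟩, rfl⟩)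
    rw [← inner_conj_symm, starProjection_inner_eq_zero _ _ h3, map_zero]
  · intro k j
    have h3 : w j ∈ M := by
      apply Submodule.le_topologicalClosure
      apply Submodule.mem_iSup_of_mem (∅, {j})
      exact mem_sup_right (subset_span ⟨⟨j, Finset.mem_singleton_self j⟩, rfl⟩)
    rw [← inner_conj_symm, starProjection_inner_eq_zero _ _ h3, map_zero]
  · simp only [sub_sub_cancel]
    exact hle

end Pool.Agent.Helper57.BI
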